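import Pool.Agent.W275.UB.Den

/-!
# UB-HIT: monic polynomials without root over `ℚ[X]` rarely have an integral root
-/

set_option autoImplicit false

namespace Pool.Agent.W591.UB

open Finset MvPolynomial Pool.Agent.W275.UB

/-- pigeonhole -/
theorem pigeon {α : Type} (p : ℕ) (hp : 0 < p) (Θ : Finset α) (T : α → ℤ) :
    ∃ Θ' ⊆ Θ, (∀ t ∈ Θ', ∀ t' ∈ Θ', (p : ℤ) ∣ T t - T t') ∧ Θ.card ≤ Θ'.card * p := by
  classical
  have hmaps : ∀ t ∈ Θ, T t % (p : ℤ) ∈ Finset.Ico (0 : ℤ) p := by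
    intro t _
    rw [Finset.mem_Ico]
    have hp' : (0 : ℤ) < p := by exact_mod_cast hp
    exact ⟨Int.emod_nonneg _ hp'.ne', Int.emod_lt_of_pos _ hp'⟩
  by_contra hcon
  push Not at hcon
  have h1 : ∀ r ∈ Finset.Ico (0 : ℤ) p, (Θ.filter fun t => T t % (p : ℤ) = r).card * p <
      Θ.card := by
    intro r _
    refine hcon _ (Finset.filter_subset _ _) ?_
    intro t ht t' ht'
    rw [Finset.mem_filter] at ht ht'
    exact Int.ModEq.dvd (ht'.2.trans ht.2.symm)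
  have h2 := Finset.card_eq_sum_card_fiberwise hmaps
  have h3 : Θ.card * p = ∑ r ∈ Finset.Ico (0 : ℤ) p,
      (Θ.filter fun t => T t % (p : ℤ) = r).card * p := by
    rw [← Finset.sum_mul, ← h2]
  have h4 : ∑ r ∈ Finset.Ico (0 : ℤ) p, (Θ.filter fun t => T t % (p : ℤ) = r).card * p <
      ∑ _r ∈ Finset.Ico (0 : ℤ) p, Θ.card := by
    refine Finset.sum_lt_sum_of_nonempty ⟨0, ?_⟩ h1
    rw [Finset.mem_Ico]
    exact ⟨le_rfl, by exact_mod_cast hp⟩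
  rw [← h3, Finset.sum_const, Int.card_Ico] at h4
  simp only [sub_zero, Int.toNat_natCast, smul_eq_mul] at h4
  rw [mul_comm] at h4
  exact lt_irrefl _ h4

theorem main : S_densp → S_rel → S_interp → S_sz → S_win → S_root → S_hit := by
  classical
  intro hdensp hrel hinterp hsz hwin hroot ι _ P A B Δ hmon hΔ hABΔ hno ε hε
  obtain ⟨P₀, hP₀⟩ := hdensp ι Δ hΔ (ε / 2) (by positivity)
  obtain ⟨p, hpP, hp⟩ := Nat.exists_infinite_primes P₀
  obtain ⟨H₁, hH₁⟩ := hP₀ p hp hpP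
  obtain ⟨Cr, K, hCK⟩ := hroot ι P hmon
  obtain ⟨E, hE⟩ := hsz ι P (2 * K + 1)
  have hp0 : 0 < p := hp.pos
  have hp1 : 1 < p := hp.one_lt
  set M := Fintype.card ι with hM
  obtain ⟨L, hL⟩ := exists_nat_gt ((E : ℝ) * p * 2 ^ M * (2 / ε))
  have hL0 : 0 < L := by
    have : (0 : ℝ) ≤ (E : ℝ) * p * 2 ^ M * (2 / ε) := by positivity
    exact_mod_cast this.trans_lt hL
  -- the relations
  set Bx : Finset (ι → ℤ) := Fintype.piFinset (fun _ => Finset.Ico (0 : ℤ) L) with hBx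
  choose Λ hΛ1 hΛ2 using hinterp ι (2 * K + 1)
  set Lm : ℕ := ∑ Θ ∈ Bx.powerset, ∑ l ∈ Λ Θ, ∑ t ∈ Θ, (l t).natAbs with hLm
  have hLmle : ∀ Θ ⊆ Bx, ∀ l ∈ Λ Θ, ∑ t ∈ Θ, (l t).natAbs ≤ Lm := by
    intro Θ hΘ l hl
    calc ∑ t ∈ Θ, (l t).natAbs ≤ ∑ l ∈ Λ Θ, ∑ t ∈ Θ, (l t).natAbs :=
          Finset.single_le_sum (f := fun l => ∑ t ∈ Θ, (l t).natAbs) (fun _ _ => Nat.zero_le _) hl
      _ ≤ Lm := Finset.single_le_sum (f := fun Θ => ∑ l ∈ Λ Θ, ∑ t ∈ Θ, (l t).natAbs)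
          (fun _ _ => Nat.zero_le _) (Finset.mem_powerset.2 hΘ)
  refine ⟨H₁ + p ^ 2 + L ^ 2 * p ^ 2 + Lm * Cr * p ^ (2 * K + 2) + 1, ?_⟩
  intro H hH
  have hHH₁ : H₁ ≤ H := by omega
  have hHp : p ^ 2 ≤ H := by omega
  have hHL : L ^ 2 * p ^ 2 ≤ H := by omega
  have hHLm : Lm * Cr * p ^ (2 * K + 2) < H := by omega
  have hH1 : 1 ≤ H := by omega
  by_contra hcount
  push Not at hcount
  -- the scale
  set N := Nat.log (p ^ 2) H with hN
  have hp2 : 1 < p ^ 2 := Nat.one_lt_pow (by norm_num) hp1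
  have hNle : (p ^ 2) ^ N ≤ H := Nat.pow_log_le_self _ (by omega)
  have hNlt : H < (p ^ 2) ^ (N + 1) := Nat.lt_pow_succ_log_self hp2 H
  have hN1 : 1 ≤ N := by
    by_contra hc
    have h0 : N = 0 := by omega
    rw [h0] at hNlt
    simp only [zero_add, pow_one] at hNlt
    omega
  set w := p ^ N with hw
  have hw0 : 0 < w := pow_pos hp0 N
  have hww : (p ^ 2) ^ N = w ^ 2 := by rw [hw, ← pow_mul, ← pow_mul, mul_comm]
  have hLw : L ≤ w := by
    have h1 : L ^ 2 * p ^ 2 < w ^ 2 * p ^ 2 := by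
      calc L ^ 2 * p ^ 2 ≤ H := hHL
        _ < (p ^ 2) ^ (N + 1) := hNlt
        _ = w ^ 2 * p ^ 2 := by rw [pow_succ, hww]
    have h2 : L ^ 2 < w ^ 2 := lt_of_mul_lt_mul_right h1 (Nat.zero_le _)
    exact (lt_of_pow_lt_pow_left₀ 2 (Nat.zero_le _) h2).le
  have hwL : w * L ≤ 2 * H + 1 := by
    calc w * L ≤ w * w := Nat.mul_le_mul_left _ hLw
      _ = (p ^ 2) ^ N := by rw [hww, sq]
      _ ≤ 2 * H + 1 := by omega
  have hbig : Lm * (Cr * H ^ K) < p ^ (N * (2 * K + 2)) := by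
    have h1 : p ^ (N * (2 * K + 2)) * p ^ (2 * K + 2) = ((p ^ 2) ^ (N + 1)) ^ (K + 1) := by
      rw [← pow_add, ← pow_mul, ← pow_mul]
      congr 1
      ring
    have h2 : H ^ (K + 1) < ((p ^ 2) ^ (N + 1)) ^ (K + 1) :=
      Nat.pow_lt_pow_left hNlt (by omega)
    have h3 : Lm * (Cr * H ^ K) * p ^ (2 * K + 2) ≤ H ^ (K + 1) := by
      calc Lm * (Cr * H ^ K) * p ^ (2 * K + 2) = (Lm * Cr * p ^ (2 * K + 2)) * H ^ K := by ring
        _ ≤ H * H ^ K := Nat.mul_le_mul_right _ hHLm.le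
        _ = H ^ (K + 1) := by ring
    have h4 : Lm * (Cr * H ^ K) * p ^ (2 * K + 2) < p ^ (N * (2 * K + 2)) * p ^ (2 * K + 2) := by
      rw [h1]; exact lt_of_le_of_lt h3 h2
    exact lt_of_mul_lt_mul_right h4 (Nat.zero_le _)
  -- the set of good points
  set BH : Finset (ι → ℤ) := Fintype.piFinset (fun _ => Finset.Icc (-(H : ℤ)) H) with hBH
  have hmemBH : ∀ v : ι → ℤ, v ∈ BH ↔ ∀ i, |v i| ≤ (H : ℤ) := by
    intro v
    rw [hBH, Fintype.mem_piFinset]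
    simp only [Finset.mem_Icc, abs_le]
  have hset1 : ({v | v ∈ {v : ι → ℤ | ∃ T : ℤ, (P.map (eval v)).eval T = 0} ∧
      ∀ i, |v i| ≤ (H : ℤ)} : Set (ι → ℤ)) =
      ↑(BH.filter fun v => ∃ T : ℤ, (P.map (eval v)).eval T = 0) := by
    ext v
    rw [Finset.mem_coe, Finset.mem_filter, hmemBH]
    simp only [Set.mem_setOf_eq]
    tauto
  have hset2 : ({v | v ∈ {v : ι → ℤ | (p : ℤ) ∣ eval v Δ} ∧
      ∀ i, |v i| ≤ (H : ℤ)} : Set (ι → ℤ)) =
      ↑(BH.filter fun v => (p : ℤ) ∣ eval v Δ) := by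
    ext v
    rw [Finset.mem_coe, Finset.mem_filter, hmemBH]
    simp only [Set.mem_setOf_eq]
    tauto
  have hc2 := hH₁ H hHH₁
  rw [hset2, Set.ncard_coe_finset] at hc2
  rw [hset1, Set.ncard_coe_finset] at hcount
  set S : Finset (ι → ℤ) := BH.filter fun v => (∃ T : ℤ, (P.map (eval v)).eval T = 0) ∧
    ¬ (p : ℤ) ∣ eval v Δ with hS
  have hScard : (ε / 2) * (2 * H + 1 : ℝ) ^ Fintype.card ι ≤ (S.card : ℝ) := by
    have h1 : (BH.filter fun v => ∃ T : ℤ, (P.map (eval v)).eval T = 0) ⊆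
        S ∪ BH.filter fun v => (p : ℤ) ∣ eval v Δ := by
      intro v hv
      rw [Finset.mem_filter] at hv
      rw [Finset.mem_union, hS, Finset.mem_filter, Finset.mem_filter]
      tauto
    have h2 := (Finset.card_le_card h1).trans (Finset.card_union_le _ _)
    have h3 : ((BH.filter fun v => ∃ T : ℤ, (P.map (eval v)).eval T = 0).card : ℝ) ≤
        (S.card : ℝ) + ((BH.filter fun v => (p : ℤ) ∣ eval v Δ).card : ℝ) := by
      exact_mod_cast h2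
    linarith
  obtain ⟨a, Θ, hΘ1, hΘ2, hΘ3⟩ := hwin ι (ε / 2) H w L S hw0 hwL
    (fun v hv => (hmemBH v).1 (Finset.mem_filter.1 hv).1) hScard
  have hwcast : ((w : ℕ) : ℤ) = (p : ℤ) ^ N := by rw [hw]; push_cast; rfl
  -- integral roots
  have hexT : ∀ t : ι → ℤ, ∃ T : ℤ, t ∈ Θ →
      (P.map (eval fun i => a i + (p : ℤ) ^ N * t i)).eval T = 0 := by
    intro t
    by_cases ht : t ∈ Θ
    · have h1 := hΘ2 t ht
      rw [hwcast] at h1
      obtain ⟨T, hT⟩ := (Finset.mem_filter.1 h1).2.1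
      exact ⟨T, fun _ => hT⟩
    · exact ⟨0, fun h => absurd h ht⟩
  choose T hT using hexT
  obtain ⟨Θ', hΘ'Θ, hΘ'p, hΘ'c⟩ := pigeon p hp0 Θ T
  have hΘ'B : Θ' ⊆ Bx := by
    intro t ht
    rw [hBx, Fintype.mem_piFinset]
    intro i
    rw [Finset.mem_Ico]
    exact hΘ1 t (hΘ'Θ ht) i
  have hnd : ∀ t ∈ Θ', ¬ (p : ℤ) ∣ ((Polynomial.derivative P).map
      (eval fun i => a i + (p : ℤ) ^ N * t i)).eval (T t) := by
    intro t ht hdvd
    have h1 := hΘ2 t (hΘ'Θ ht)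
    rw [hwcast] at h1
    apply (Finset.mem_filter.1 h1).2.2
    have h2 := congrArg (fun F : Polynomial (MvPolynomial ι ℤ) =>
      (F.map (eval fun i => a i + (p : ℤ) ^ N * t i)).eval (T t)) hABΔ
    simp only [Polynomial.map_add, Polynomial.map_mul, Polynomial.eval_add, Polynomial.eval_mul,
      Polynomial.map_C, Polynomial.eval_C] at h2
    rw [hT t (hΘ'Θ ht), mul_zero, zero_add] at h2
    rw [← h2]
    exact Dvd.dvd.mul_left hdvd _
  have hTb : ∀ t ∈ Θ', |T t| ≤ ((Cr * H ^ K : ℕ) : ℤ) := by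
    intro t ht
    have h1 := hΘ2 t (hΘ'Θ ht)
    rw [hwcast] at h1
    exact hCK H _ (T t) hH1 ((hmemBH _).1 (Finset.mem_filter.1 h1).1) (hT t (hΘ'Θ ht))
  have hzero : ∀ l ∈ Λ Θ', ∑ t ∈ Θ', l t * T t = 0 := by
    intro l hl
    have h1 := hrel ι P p N (2 * K + 1) hp hN1 a Θ' T l (fun t ht => hT t (hΘ'Θ ht)) hnd hΘ'p
      (hΛ1 Θ' l hl)
    refine Int.eq_zero_of_abs_lt_dvd h1 ?_
    have h2 : |∑ t ∈ Θ', l t * T t| ≤ ((Lm * (Cr * H ^ K) : ℕ) : ℤ) := by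
      calc |∑ t ∈ Θ', l t * T t| ≤ ∑ t ∈ Θ', |l t * T t| := Finset.abs_sum_le_sum_abs _ _
        _ ≤ ∑ t ∈ Θ', ((l t).natAbs : ℤ) * ((Cr * H ^ K : ℕ) : ℤ) := by
          refine Finset.sum_le_sum fun t ht => ?_
          rw [abs_mul, ← Int.natCast_natAbs (l t)]
          exact mul_le_mul_of_nonneg_left (hTb t ht) (by positivity)
        _ = ((∑ t ∈ Θ', (l t).natAbs : ℕ) : ℤ) * ((Cr * H ^ K : ℕ) : ℤ) := by
          rw [← Finset.sum_mul]
          push_cast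
          rfl
        _ ≤ (Lm : ℤ) * ((Cr * H ^ K : ℕ) : ℤ) := by
          refine mul_le_mul_of_nonneg_right ?_ (by positivity)
          exact_mod_cast hLmle Θ' hΘ'B l hl
        _ = ((Lm * (Cr * H ^ K) : ℕ) : ℤ) := by push_cast; ring
    refine lt_of_le_of_lt h2 ?_
    have h3 : p ^ (N * (2 * K + 2)) = p ^ (N * (2 * K + 1 + 1)) := by ring_nf
    rw [h3] at hbig
    exact_mod_cast hbig
  obtain ⟨Q, hQ1, hQ2⟩ := hΛ2 Θ' T hzero
  have hcard : E * L ^ Fintype.card ι < Θ'.card * L := by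
    have hLr : (0 : ℝ) < L := by exact_mod_cast hL0
    have hpr : (0 : ℝ) < p := by exact_mod_cast hp0
    have h1 : (Θ.card : ℝ) ≤ (Θ'.card : ℝ) * p := by exact_mod_cast hΘ'c
    have h2 : (E : ℝ) * L ^ M * p < (Θ'.card : ℝ) * L * p := by
      calc (E : ℝ) * L ^ M * p
          = ((E : ℝ) * p * 2 ^ M * (2 / ε)) * (ε / 2 * (L / 2) ^ M) := by
            rw [div_pow]
            field_simp
        _ < L * (ε / 2 * (L / 2) ^ M) := by
            apply mul_lt_mul_of_pos_right hL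
            positivity
        _ ≤ L * Θ.card := by
            apply mul_le_mul_of_nonneg_left hΘ3 hLr.le
        _ ≤ L * ((Θ'.card : ℝ) * p) := mul_le_mul_of_nonneg_left h1 hLr.le
        _ = (Θ'.card : ℝ) * L * p := by ring
    have h3 : (E : ℝ) * L ^ M < (Θ'.card : ℝ) * L := lt_of_mul_lt_mul_right h2 hpr.le
    exact_mod_cast h3
  obtain ⟨F, hF⟩ := hE L a ((p : ℤ) ^ N) Θ' T Q (pow_ne_zero _ (by exact_mod_cast hp0.ne')) hQ1
    (fun t ht => hΘ1 t (hΘ'Θ ht)) hcard (fun t ht => hT t (hΘ'Θ ht)) hQ2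
  exact hno F hF

end Pool.Agent.W591.UB
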